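import Pool.Agent.Run7.h202.Conv

/-! # A quadratic averaged bound for closed orbits of bounded total curvature

For every polynomial vector field of degree at most `n` the mean over the rotation angle of the
number of closed orbits of given size and bounded total absolute curvature is at most a constant
times `n²`; in particular this holds for convex closed orbits. -/

open Set MeasureTheory
open scoped ENNReal

namespace Pool.Agent.Results.MP_95e7ec_an.QuadraticBoundedCurvature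

/-- The total absolute curvature `∫ |x' y'' - y' x''| / (x' ^ 2 + y' ^ 2)` of the closed curve
`γ = (x, y)` with period `T`. -/
noncomputable def totalCurvature (γ : ℝ → ℝ × ℝ) (T : ℝ) : ℝ :=
  ∫ t in (0:ℝ)..T,
    |deriv (fun s => (γ s).1) t * deriv (deriv fun s => (γ s).2) t -
      deriv (fun s => (γ s).2) t * deriv (deriv fun s => (γ s).1) t| /
      (deriv (fun s => (γ s).1) t ^ 2 + deriv (fun s => (γ s).2) t ^ 2)

/-- `γ` is a nonconstant solution of period `T > 0` of the field `(P, Q)` rotated by the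
angle `α`. -/
def IsClosedSolution (P Q : MvPolynomial (Fin 2) ℝ) (α : ℝ) (γ : ℝ → ℝ × ℝ) (T : ℝ) : Prop :=
  0 < T ∧
    (∀ t : ℝ, HasDerivAt γ
      (Real.cos α * MvPolynomial.eval ![(γ t).1, (γ t).2] P -
          Real.sin α * MvPolynomial.eval ![(γ t).1, (γ t).2] Q,
        Real.sin α * MvPolynomial.eval ![(γ t).1, (γ t).2] P +
          Real.cos α * MvPolynomial.eval ![(γ t).1, (γ t).2] Q) t) ∧
    (∀ t : ℝ, γ (t + T) = γ t) ∧ ∃ s t : ℝ, γ s ≠ γ t

/-- The Euclidean diameter of `C` is between `r` and `R`. -/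
def DiamIn (r R : ℝ) (C : Set (ℝ × ℝ)) : Prop :=
  (∃ x ∈ C, ∃ y ∈ C, r ≤ √((x.1 - y.1) ^ 2 + (x.2 - y.2) ^ 2)) ∧
    ∀ x ∈ C, ∀ y ∈ C, √((x.1 - y.1) ^ 2 + (x.2 - y.2) ^ 2) ≤ R

/-- The closed orbits (limit cycles or not) in the plane, of the field `(P, Q)` rotated by `α`, with
diameter between `r` and `R` and total absolute curvature at most `κ`. -/
def boundedOrbits (P Q : MvPolynomial (Fin 2) ℝ) (κ r R α : ℝ) : Set (Set (ℝ × ℝ)) :=
  {C | DiamIn r R C ∧ ∃ γ : ℝ → ℝ × ℝ, ∃ T : ℝ, IsClosedSolution P Q α γ T ∧ C = Set.range γ ∧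
    totalCurvature γ T ≤ κ}

/-- The closed orbits in the plane, of the field `(P, Q)` rotated by `α`, with diameter between `r`
and `R` which are convex curves: through every point passes a line which has the orbit on one
side. -/
def convexOrbits (P Q : MvPolynomial (Fin 2) ℝ) (r R α : ℝ) : Set (Set (ℝ × ℝ)) :=
  {C | DiamIn r R C ∧ (∃ γ : ℝ → ℝ × ℝ, ∃ T : ℝ, IsClosedSolution P Q α γ T ∧ C = Set.range γ) ∧
    ∀ z ∈ C, ∃ u v : ℝ, u ^ 2 + v ^ 2 = 1 ∧ ∀ w ∈ C, u * (w.1 - z.1) + v * (w.2 - z.2) ≤ 0}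

/-- For every nonzero polynomial field of degree at most `n` and `0 < r ≤ R`: the mean over the
rotation angle of the number of closed orbits in the plane with diameter in `[r, R]` and total
absolute curvature at most `κ` is at most `(4 κ / π + 6) n² (1 + log₂ (R / r))`, and the mean of the
number of convex closed orbits with diameter in `[r, R]` is at most `14 n² (1 + log₂ (R / r))`. -/
theorem result (n : ℕ) (P Q : MvPolynomial (Fin 2) ℝ) (hP : P.totalDegree ≤ n)
    (hQ : Q.totalDegree ≤ n) (hne : P ≠ 0 ∨ Q ≠ 0) (r R : ℝ) (hr : 0 < r) (hR : r ≤ R) :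
    (∀ κ : ℝ, 0 ≤ κ → ∃ g : ℝ → ℝ≥0∞, Measurable g ∧
      (∀ α ∈ Ioo 0 Real.pi, ((boundedOrbits P Q κ r R α).encard : ℝ≥0∞) ≤ g α) ∧
      ∫⁻ α in Ioo 0 Real.pi, g α ≤ ENNReal.ofReal
        (Real.pi * ((4 * κ / Real.pi + 6) * n ^ 2 * (1 + Real.logb 2 (R / r))))) ∧
    ∃ g : ℝ → ℝ≥0∞, Measurable g ∧
      (∀ α ∈ Ioo 0 Real.pi, ((convexOrbits P Q r R α).encard : ℝ≥0∞) ≤ g α) ∧
      ∫⁻ α in Ioo 0 Real.pi, g α ≤ ENNReal.ofReal
        (Real.pi * (14 * n ^ 2 * (1 + Real.logb 2 (R / r)))) := by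
  have hπ := Real.pi_pos
  constructor
  · intro κ hκ
    obtain ⟨g, h1, h2, h3⟩ := Run7.h202.curv_maj hP hQ hne hκ hr hR
    refine ⟨g, h1, fun α hα => le_trans (ENat.toENNReal_le.2 (encard_le_encard ?_)) (h2 α hα),
      h3.trans (le_of_eq ?_)⟩
    · rintro C ⟨hd, γ, T, ⟨hT, hγ, hper, hnc⟩, rfl, hc⟩
      obtain ⟨c, hc1, hc2⟩ := Run7.h202.exists_cyc hα hT hγ hper hnc hc
      have hC : c.C = Set.range γ := by rw [← hc2]; rfl
      exact ⟨c, by rw [hC]; exact hd, hc1, hC⟩
    · congr 1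
      field_simp
  · obtain ⟨g, h1, h2, h3⟩ := Run7.h202.curv_maj hP hQ hne (κ := 2 * Real.pi) (by positivity) hr hR
    refine ⟨g, h1, fun α hα => le_trans (ENat.toENNReal_le.2 (encard_le_encard ?_)) (h2 α hα),
      h3.trans (le_of_eq ?_)⟩
    · rintro C ⟨hd, ⟨γ, T, ⟨hT, hγ, hper, hnc⟩, rfl⟩, hcv⟩
      obtain ⟨c, hc1, hc2⟩ := Run7.h202.exists_cyc_cvx hα hT hγ hper hnc fun z hz => by
        obtain ⟨u, v, huv, hw⟩ := hcv z hz
        refine ⟨(u, v), fun h0 => ?_, fun w hw' => ?_⟩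
        · rw [Prod.mk_eq_zero] at h0
          rw [h0.1, h0.2] at huv
          norm_num at huv
        · have := hw w hw'
          simp only [Pool.Agent.H709U.dot, Prod.fst_sub, Prod.snd_sub]
          linarith
      have hC : c.C = Set.range γ := by rw [← hc2]; rfl
      exact ⟨c, by rw [hC]; exact hd, hc1, hC⟩
    · congr 1
      ring

end Pool.Agent.Results.MP_95e7ec_an.QuadraticBoundedCurvature
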