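import Pool.Agent.Run7.h202.Top

/-! # A quadratic averaged bound for closed orbits of bounded aspect ratio

For every polynomial vector field of degree at most `n` the mean over the rotation angle of the
number of closed orbits of given size and bounded aspect ratio is at most a constant times `n²`. -/

open Set MeasureTheory
open scoped ENNReal

namespace Pool.Agent.Results.MP_95e7ec_an.QuadraticPerScale

/-- Closed orbits `C` (limit cycles or not) in the plane of the field `(P, Q)` rotated by the angle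
`α` such that, for some `w` between `r` and `R`, the projections of `C` to all lines have length at
least `w`, and the Euclidean diameter of `C` is at most `D * w`. -/
def closedOrbits (P Q : MvPolynomial (Fin 2) ℝ) (r R D α : ℝ) : Set (Set (ℝ × ℝ)) :=
  {C | (∃ γ : ℝ → ℝ × ℝ, ∃ T : ℝ, 0 < T ∧
      (∀ t : ℝ, HasDerivAt γ
        (Real.cos α * MvPolynomial.eval ![(γ t).1, (γ t).2] P -
            Real.sin α * MvPolynomial.eval ![(γ t).1, (γ t).2] Q,
          Real.sin α * MvPolynomial.eval ![(γ t).1, (γ t).2] P +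
            Real.cos α * MvPolynomial.eval ![(γ t).1, (γ t).2] Q) t) ∧
      (∀ t : ℝ, γ (t + T) = γ t) ∧ (∃ s t : ℝ, γ s ≠ γ t) ∧ C = Set.range γ) ∧
    ∃ w : ℝ, r ≤ w ∧ w ≤ R ∧
      (∀ u v : ℝ, u ^ 2 + v ^ 2 = 1 →
        ∃ x ∈ C, ∃ y ∈ C, w ≤ u * (x.1 - y.1) + v * (x.2 - y.2)) ∧
      ∀ x ∈ C, ∀ y ∈ C, √((x.1 - y.1) ^ 2 + (x.2 - y.2) ^ 2) ≤ D * w}

/-- For every nonzero polynomial field of degree at most `n`, `0 < r ≤ R` and `D > 0`, the mean over
the rotation angle of the number of closed orbits in the plane with minimal width between `r` and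
`R` and diameter at most `D` times the width is at most `128 π D² n² (1 + log₂ (R / r))`. -/
theorem result (n : ℕ) (P Q : MvPolynomial (Fin 2) ℝ) (hP : P.totalDegree ≤ n)
    (hQ : Q.totalDegree ≤ n) (hne : P ≠ 0 ∨ Q ≠ 0) (r R D : ℝ) (hr : 0 < r) (hR : r ≤ R)
    (hD : 0 < D) :
    ∃ g : ℝ → ℝ≥0∞, Measurable g ∧
      (∀ α ∈ Ioo 0 Real.pi, ((closedOrbits P Q r R D α).encard : ℝ≥0∞) ≤ g α) ∧
      ∫⁻ α in Ioo 0 Real.pi, g α ≤
        ENNReal.ofReal (Real.pi * (128 * Real.pi * D ^ 2 * n ^ 2 * (1 + Real.logb 2 (R / r)))) := by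
  obtain ⟨g, h1, h2, h3⟩ := Run7.h202.quadratic hP hQ hne hr hR hD
  refine ⟨g, h1, fun α hα => le_trans (ENat.toENNReal_le.2 (encard_le_encard ?_)) (h2 α hα), h3⟩
  rintro C ⟨hC, w, hw1, hw2, hw, hd⟩
  refine ⟨hC, w, hw1, hw2, fun β => ?_, hd⟩
  obtain ⟨x, hx, y, hy, hxy⟩ := hw (Real.cos β) (Real.sin β) (Real.cos_sq_add_sin_sq β)
  refine ⟨y, hy, x, hx, hxy.trans (le_of_eq ?_)⟩
  simp only [Pool.Agent.H709R2.rot, Real.cos_neg, Real.sin_neg]
  ring

end Pool.Agent.Results.MP_95e7ec_an.QuadraticPerScale
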