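import Pool.Agent.Run7.h202.Conv

/-! # A quadratic averaged bound for round closed orbits of all sizes

For every polynomial vector field of degree at most `n` the mean over the rotation angle of the
number of all closed orbits, of all sizes, which are round in a quantitative sense is at most a
constant times `n²`. -/

open Set MeasureTheory
open scoped ENNReal

namespace Pool.Agent.Results.MP_95e7ec_an.QuadraticRound

/-- The total absolute curvature `∫ |x' y'' - y' x''| / (x' ^ 2 + y' ^ 2)` of the closed curve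
`γ = (x, y)` with period `T`. -/
noncomputable def totalCurvature (γ : ℝ → ℝ × ℝ) (T : ℝ) : ℝ :=
  ∫ t in (0:ℝ)..T,
    |deriv (fun s => (γ s).1) t * deriv (deriv fun s => (γ s).2) t -
      deriv (fun s => (γ s).2) t * deriv (deriv fun s => (γ s).1) t| /
      (deriv (fun s => (γ s).1) t ^ 2 + deriv (fun s => (γ s).2) t ^ 2)

/-- The vector field `(P, Q)` rotated by the angle `α`. -/
noncomputable def rotated (P Q : MvPolynomial (Fin 2) ℝ) (α : ℝ) (z : ℝ × ℝ) : ℝ × ℝ :=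
  (Real.cos α * MvPolynomial.eval ![z.1, z.2] P - Real.sin α * MvPolynomial.eval ![z.1, z.2] Q,
    Real.sin α * MvPolynomial.eval ![z.1, z.2] P + Real.cos α * MvPolynomial.eval ![z.1, z.2] Q)

/-- `γ` is a nonconstant solution of period `T > 0` of the field `(P, Q)` rotated by the
angle `α`. -/
def IsClosedSolution (P Q : MvPolynomial (Fin 2) ℝ) (α : ℝ) (γ : ℝ → ℝ × ℝ) (T : ℝ) : Prop :=
  0 < T ∧ (∀ t : ℝ, HasDerivAt γ (rotated P Q α (γ t)) t) ∧ (∀ t : ℝ, γ (t + T) = γ t) ∧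
    ∃ s t : ℝ, γ s ≠ γ t

/-- `p` is a common zero of `P` and `Q`. -/
def IsZero (P Q : MvPolynomial (Fin 2) ℝ) (p : ℝ × ℝ) : Prop :=
  MvPolynomial.eval ![p.1, p.2] P = 0 ∧ MvPolynomial.eval ![p.1, p.2] Q = 0

/-- The closed orbits `C` (limit cycles or not) in the plane, of the field `(P, Q)` rotated by `α`,
of total absolute curvature at most `κ` such that some common zero `p` of `P` and `Q` has distance
at least `β * diam C` from all the tangent lines of `C`. -/
def roundOrbits (P Q : MvPolynomial (Fin 2) ℝ) (κ β α : ℝ) : Set (Set (ℝ × ℝ)) :=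
  {C | (∃ γ : ℝ → ℝ × ℝ, ∃ T : ℝ, IsClosedSolution P Q α γ T ∧ C = Set.range γ ∧
      totalCurvature γ T ≤ κ) ∧
    ∃ p, IsZero P Q p ∧ ∀ x ∈ C, ∀ y ∈ C, ∀ z ∈ C,
      β * √((x.1 - y.1) ^ 2 + (x.2 - y.2) ^ 2) *
          √((rotated P Q α z).1 ^ 2 + (rotated P Q α z).2 ^ 2) ≤
        |(z.1 - p.1) * (rotated P Q α z).2 - (z.2 - p.2) * (rotated P Q α z).1|}

/-- The closed orbits `C` in the plane, of the field `(P, Q)` rotated by `α`, which are convex
curves (through every point passes a line which has `C` on one side) such that some common zero `p`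
of `P` and `Q` in the interior of the convex hull of `C` has distance at least `β * diam C`
from `C`. -/
def convexOrbits (P Q : MvPolynomial (Fin 2) ℝ) (β α : ℝ) : Set (Set (ℝ × ℝ)) :=
  {C | (∃ γ : ℝ → ℝ × ℝ, ∃ T : ℝ, IsClosedSolution P Q α γ T ∧ C = Set.range γ) ∧
    (∀ z ∈ C, ∃ u v : ℝ, u ^ 2 + v ^ 2 = 1 ∧ ∀ w ∈ C, u * (w.1 - z.1) + v * (w.2 - z.2) ≤ 0) ∧
    ∃ p, IsZero P Q p ∧ p ∈ interior (convexHull ℝ C) ∧ ∀ x ∈ C, ∀ y ∈ C, ∀ z ∈ C,
      β * √((x.1 - y.1) ^ 2 + (x.2 - y.2) ^ 2) ≤ √((p.1 - z.1) ^ 2 + (p.2 - z.2) ^ 2)}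

/-- For all relatively prime `P, Q` of degree at most `n` and `β > 0`: the mean over the rotation
angle of the number of all closed orbits in the plane with total absolute curvature at most `κ` whose
tangent lines all have distance at least `β` times the diameter from a common zero of `P` and `Q` is
at most `(κ / π + 3 / 2) (1 + 8 / β + 4 / β²) n²`; the mean of the number of all convex closed orbits
which enclose a common zero at distance at least `β` times the diameter from the orbit is at most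
`(7 / 2) (1 + 8 / β + 4 / β²) n²`. -/
theorem result (n : ℕ) (P Q : MvPolynomial (Fin 2) ℝ) (hP : P.totalDegree ≤ n)
    (hQ : Q.totalDegree ≤ n) (hrel : IsRelPrime P Q) (β : ℝ) (hβ : 0 < β) :
    (∀ κ : ℝ, 0 ≤ κ → ∃ g : ℝ → ℝ≥0∞, Measurable g ∧
      (∀ α ∈ Ioo 0 Real.pi, ((roundOrbits P Q κ β α).encard : ℝ≥0∞) ≤ g α) ∧
      ∫⁻ α in Ioo 0 Real.pi, g α ≤ ENNReal.ofReal
        (Real.pi * ((κ / Real.pi + 3 / 2) * (1 + 8 / β + 4 / β ^ 2) * n ^ 2))) ∧
    ∃ g : ℝ → ℝ≥0∞, Measurable g ∧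
      (∀ α ∈ Ioo 0 Real.pi, ((convexOrbits P Q β α).encard : ℝ≥0∞) ≤ g α) ∧
      ∫⁻ α in Ioo 0 Real.pi, g α ≤ ENNReal.ofReal
        (Real.pi * (7 / 2 * (1 + 8 / β + 4 / β ^ 2) * n ^ 2)) := by
  have hπ := Real.pi_pos
  obtain ⟨Z, hZc, hZ⟩ := Pool.Agent.H709U.b3 n P Q hP hQ hrel
  have hz : ∀ p, IsZero P Q p → Pool.Agent.H709R2.field P Q p = 0 := by
    rintro p ⟨h1, h2⟩
    exact Prod.ext h1 h2
  constructor
  · intro κ hκ
    obtain ⟨g, h1, h2, h3⟩ := Run7.h202.round_maj hP hQ hκ hβ hZc hZ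
    refine ⟨g, h1, fun α hα => le_trans (ENat.toENNReal_le.2 (encard_le_encard ?_)) (h2 α hα),
      h3.trans (le_of_eq ?_)⟩
    · rintro C ⟨⟨γ, T, ⟨hT, hγ, hper, hnc⟩, rfl, hc⟩, p, hp, hd⟩
      obtain ⟨c, hc1, hc2⟩ := Run7.h202.exists_cyc hα hT hγ hper hnc hc
      have hC : c.C = Set.range γ := by rw [← hc2]; rfl
      refine ⟨c, ⟨p, hz p hp, ?_⟩, hc1, hC⟩
      rw [hC, hc1]
      exact hd
    · congr 1
      field_simp
  · obtain ⟨g, h1, h2, h3⟩ := Run7.h202.round_maj hP hQ (κ := 2 * Real.pi) (by positivity) hβ hZc hZ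
    refine ⟨g, h1, fun α hα => le_trans (ENat.toENNReal_le.2 (encard_le_encard ?_)) (h2 α hα),
      h3.trans (le_of_eq ?_)⟩
    · rintro C ⟨⟨γ, T, ⟨hT, hγ, hper, hnc⟩, rfl⟩, hcv, p, hp, hpi, hd⟩
      have hcv' : Run7.h202.Cvx (Set.range γ) := fun z hz => by
        obtain ⟨u, v, huv, hw⟩ := hcv z hz
        refine ⟨(u, v), fun h0 => ?_, fun w hw' => ?_⟩
        · rw [Prod.mk_eq_zero] at h0
          rw [h0.1, h0.2] at huv
          norm_num at huv
        · have := hw w hw'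
          simp only [Pool.Agent.H709U.dot, Prod.fst_sub, Prod.snd_sub]
          linarith
      obtain ⟨c, hc1, hc2⟩ := Run7.h202.exists_cyc_cvx hα hT hγ hper hnc hcv'
      have hC : c.C = Set.range γ := by rw [← hc2]; rfl
      refine ⟨c, ?_, hc1, hC⟩
      exact Run7.h202.Rd_cvx c (by rw [hC]; exact hcv') (hz p hp) (by rw [hC]; exact hpi)
        (by rw [hC]; exact hd)
    · congr 1
      ring

end Pool.Agent.Results.MP_95e7ec_an.QuadraticRound
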